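import Mathlib

namespace Pool.Agent.R260.AF

/-- `A` with the (bilinear, associative) product `mul` is anti-Frobenius: there is a
nondegenerate antisymmetric bilinear form `ω` with
`ω(x, yz) + ω(y, zx) + ω(z, xy) = 0`. -/
def AntiFrobenius (A : Type) [AddCommGroup A] [Module ℂ A] (mul : A → A → A) : Prop :=
  ∃ ω : A →ₗ[ℂ] A →ₗ[ℂ] ℂ,
    (∀ x y, ω x y = -ω y x) ∧ (∀ x, (∀ y, ω x y = 0) → x = 0) ∧
    ∀ x y z, ω x (mul y z) + ω y (mul z x) + ω z (mul x y) = 0

/-- The space `S ⊕ M` with `S = Mat_n` and `M = V^p ⊕ (V^*)^q ⊕ (Mat_n)^e ⊕ ℂ^f`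
(`p` left modules, `q` right modules, `e` copies of the regular bimodule and `f` copies of the
bimodule with zero actions): the general form of a pair with simple `S`. -/
abbrev SimpleCarrier (n p q e f : ℕ) : Type :=
  Matrix (Fin n) (Fin n) ℂ × Matrix (Fin n) (Fin p) ℂ × Matrix (Fin q) (Fin n) ℂ ×
    (Fin e → Matrix (Fin n) (Fin n) ℂ) × (Fin f → ℂ)

/-- The product `(s, m)(s', m') = (ss', sm' + ms')` of `S ⊕ M`. -/
def simpleMul (n p q e f : ℕ) (x y : SimpleCarrier n p q e f) : SimpleCarrier n p q e f :=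
  (x.1 * y.1, x.1 * y.2.1, x.2.2.1 * y.1,
    (fun k => x.1 * y.2.2.2.1 k + x.2.2.2.1 k * y.1), 0)

def SimpleGoal : Prop :=
  ∀ n p q e f : ℕ, 0 < n →
    (AntiFrobenius (SimpleCarrier n p q e f) (simpleMul n p q e f) ↔
      Even e ∧ Even f ∧ p ≠ q ∧ (max p q - min p q) ∣ n)

/-- The space `S ⊕ M` with `S = ℂ^r`; `M` is the sum of `m i j` copies of the bimodule `ℂ_{ij}`
(`i, j : Option (Fin r)`, `none` standing for the zero action). -/
abbrev CommCarrier (r : ℕ) (m : Option (Fin r) → Option (Fin r) → ℕ) : Type :=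
  (Fin r → ℂ) × (∀ i j : Option (Fin r), Fin (m i j) → ℂ)

/-- The scalar by which `s ∈ ℂ^r` acts on the side labelled by `o`. -/
def act {r : ℕ} (s : Fin r → ℂ) (o : Option (Fin r)) : ℂ := o.elim 0 s

/-- The product `(s, m)(s', m') = (ss', sm' + ms')` of `S ⊕ M`. -/
def commMul (r : ℕ) (m : Option (Fin r) → Option (Fin r) → ℕ) (x y : CommCarrier r m) :
    CommCarrier r m :=
  (x.1 * y.1, fun i j k => act x.1 i * y.2 i j k + x.2 i j k * act y.1 j)

/-- Vertices `0, 1, …, r`, with an edge between `i` and `j` iff `m i j ≠ m j i`. -/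
def netGraph {r : ℕ} (m : Option (Fin r) → Option (Fin r) → ℕ) :
    SimpleGraph (Option (Fin r)) where
  Adj i j := m i j ≠ m j i
  symm := ⟨fun _ _ h => h.symm⟩
  loopless := ⟨fun _ h => h rfl⟩

def CommGoal : Prop :=
  ∀ (r : ℕ) (m : Option (Fin r) → Option (Fin r) → ℕ),
    AntiFrobenius (CommCarrier r m) (commMul r m) ↔
      (∀ i, Even (m i i)) ∧ (∀ i j, m i j ≤ m j i + 1) ∧ (netGraph m).IsTree

end Pool.Agent.R260.AF
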